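import Pool.Agent.H36.LBQ.Cov5
import Pool.Agent.H64.P5.Def
import Pool.Agent.H48.P5.Tm2

/-!
# The covector of P5 on the record

`cov5T`: `cov5` for the record `TQ`, with the three-point vectors of the two pictures.
-/

set_option autoImplicit false

namespace Pool.TQ64

open Finset Real Matrix
open Pool.Agent.H49.Ent Pool.Agent.H32.Dense Pool.STK Pool.SLO Pool.LBL
open Pool.BFL (Pb)
open Pool.QT64 (d3)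

variable {c k0 k1 : ℕ}

/-- The slopes of the sample as in the second picture. -/
noncomputable abbrev TQ.aTq (Q : TQ c k0 k1) (X : ℕ) (os oss : Q.Ω) : Q.Ω → Fin k0 → Fin c → ℝ :=
  aT (fun ω => Q.tm (Q.th ω)) (fun ω => Q.a (Q.th ω)) (fun ω => Q.cc (Q.th ω))
    (fun ω => Q.El (Q.th ω)) (fun ω => Q.Ev (Q.th ω)) X os oss

theorem aT_at2 (Q : TQ c k0 k1) {X : ℕ} {s : ℝ} {os oss : Q.Ω}
    (hT : s * 2 ^ X ≤ |((Q.tm (Q.th oss) - Q.tm (Q.th os) : ℤ) : ℝ)|) (ω : Q.Ω) (u : Fin k0)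
    (i : Fin c) : Q.aTq X os oss ω u i = Q.at2 X s (Q.th ω) (Q.th os) (Q.th oss) u i := by
  have hX : (2 : ℝ) ^ X ≠ 0 := by positivity
  have e1 : ∀ r, chat (fun ω => Q.tm (Q.th ω)) (fun ω => Q.cc (Q.th ω)) os oss ω r i =
      Q.ch X s (Q.th ω) (Q.th os) (Q.th oss) r i := by
    intro r
    unfold chat TQ.ch TQ.e1
    rw [if_pos hT]
    congr 1
    push_cast
    by_cases hD : ((Q.tm (Q.th oss) : ℝ) - Q.tm (Q.th os)) = 0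
    · rw [hD]
      simp
    · field_simp
  unfold TQ.aTq aT TQ.at2
  simp only [e1]
  ring

theorem d3_at2 (Q : TQ c k0 k1) {X : ℕ} {s : ℝ} {os oss : Q.Ω}
    (hT : s * 2 ^ X ≤ |((Q.tm (Q.th oss) - Q.tm (Q.th os) : ℤ) : ℝ)|) (u : Fin k0)
    (t0 t1 t2 : Q.Ω) :
    d3 (fun ω => tsq X (Q.tm (Q.th ω)) (Q.tm (Q.th os))) (Q.aTq X os oss) u t0 t1 t2 =
      d3 (fun t => tsq X (Q.tm t) (Q.tm (Q.th os))) (fun t => Q.at2 X s t (Q.th os) (Q.th oss)) u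
        (Q.th t0) (Q.th t1) (Q.th t2) := by
  funext i
  unfold d3
  simp only [aT_at2 Q hT]

set_option maxHeartbeats 4000000 in
/-- **The covector of P5 on the record.** -/
theorem cov5T (c k0 k1 : ℕ) (n₀ : Fin c) (hn₀ : ∀ i, i ≤ n₀) (p0 x1 ep w0 : ℝ) (hp0 : 0 < p0)
    (hx1 : 0 < x1) (hep : 0 < ep) (hw0 : 0 < w0) :
    ∃ x2 p2 η κ : ℝ, 0 < x2 ∧ 0 < p2 ∧ 0 < η ∧ 0 < κ ∧ η ≤ p0 ∧ κ ≤ x1 / 2 ∧
    ∀ s : ℝ, 0 < s → s ≤ 1 → ∃ X0 : ℕ, ∀ X : ℕ, X0 ≤ X →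
    ∀ (Q : TQ c k0 k1) {Pt Λ' Ξ : Type} (P : Q.Ω → Pt) (L' : Q.Ω → Λ') (pt : Q.Ω → Ξ),
    IsLaw Q.p → (∀ ω, 0 ≤ Q.tm (Q.th ω) ∧ Q.tm (Q.th ω) < 2 ^ X) →
    (∀ ω u i, |Q.a (Q.th ω) u i| ≤ 2 ^ (κ * X)) → (∀ ω u i, |Q.cc (Q.th ω) u i| ≤ 2 ^ (κ * X)) →
    (∀ ω ω' i r u, |Q.cc (Q.th ω) r i| * |Q.El (Q.th ω') r u| ≤ 2 ^ (κ * X)) →
    (∀ ω u i, |Q.Ev (Q.th ω) u i| ≤ 2 ^ (κ * X)) → Det Q.p L' Q.line → Det Q.p pt P →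
    ∀ (A : Pt → Matrix (Fin c) (Fin c) ℝ) (M : Q.Ω → Matrix (Fin c) (Fin c) ℝ)
      (Fz : Finset (Fin c)) (fD : Ξ → Fin c → Fin c → ℝ) (fL : Λ' → Fin c → Fin c → ℝ)
      (φ : Λ' → Fin c → Fin 3 → Fin (k0 + k1) → ℝ) (Gd : Q.Ω → Prop) (B : ℕ),
      1 / (B : ℝ) ≤ ep →
    (∀ R, (A R).det ≠ 0) → (∀ R i b, |A R i b| ≤ 2 ^ (κ * X)) →
    (∀ R i b, |(A R)⁻¹ i b| ≤ 2 ^ X) →
    (∀ ω, Uni (M ω)) → (∀ ω i j, |M ω i j| ≤ 2 ^ (κ * X)) →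
    (∀ ω i j, |(M ω)⁻¹ i j| ≤ 2 ^ (κ * X)) →
    n₀ ∉ Fz →
    Pb Q.p (fun ω => ¬ Gd ω) ≤ η →
    (∀ ξ, ∀ g ∈ Fz, Ld g (fD ξ g) ∧ ∀ i, |fD ξ g i| ≤ 2 ^ (κ * X)) →
    (∀ ω, 0 < Q.p ω → Gd ω → ∀ g ∈ Fz, ∀ i,
      |(fD (pt ω) g ᵥ* M ω) i - fL (L' ω) g i| ≤ 2 ^ (-((ep + w0) * X))) →
    (∀ ω, 0 < Q.p ω → Gd ω → ∀ g ∈ Fz, ∀ u,
      |∑ i, fL (L' ω) g i * Fin.append (Q.a (Q.th ω)) (Q.cc (Q.th ω)) u i -
        ∑ j, φ (L' ω) g j u * psi3 (fun ω => Q.tm (Q.th ω)) X ω j| ≤ 2 ^ (-((ep + w0) * X))) →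
    (∀ z, ∀ g ∈ Fz, ∀ j u, |φ z g j u| ≤ 2 ^ (κ * X)) →
    p0 ≤ Pb Q.p (fun ω => ∃ m', Ad (A (P ω)) n₀ ((2 : ℝ) ^ ((X : ℝ) / B))
      (2 ^ (-((x1 - κ) * X))) m') →
    Pb (tup Q.p Q.line 1) (fun w => ¬ ∀ i j,
      |((A (P (w 0)))⁻¹ * (M (w 0) * (M (w 1))⁻¹ * A (P (w 1)))) i j| ≤ 2 ^ (κ * X)) ≤ η →
    Pb (tup Q.p Q.line 3) (fun w => ¬ ∀ u b, |((A (P (w 0)))⁻¹ *ᵥ (M (w 0) *ᵥ
      d3 Q.tm Q.cc u (Q.th (w 1)) (Q.th (w 2)) (Q.th (w 3)))) b| ≤ 2 ^ (κ * X)) ≤ η →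
    Pb (tup Q.p Q.line 5) (fun w => ¬ ∀ u b, |((A (P (w 0)))⁻¹ *ᵥ (M (w 0) *ᵥ
      d3 (fun t => tsq X (Q.tm t) (Q.tm (Q.th (w 4))))
        (fun t => Q.at2 X s t (Q.th (w 4)) (Q.th (w 5))) u
        (Q.th (w 1)) (Q.th (w 2)) (Q.th (w 3)))) b| ≤ 2 ^ (κ * X)) ≤ η →
    Q.TM X s η →
    ∃ (l : Fin c) (nD : Ξ → Fin c → ℝ) (nL : Λ' → Fin c → ℝ)
      (e : Λ' → Fin 3 → Fin (k0 + k1) → ℝ), l ∉ Fz ∧
      (∀ ξ, Ld l (nD ξ) ∧ (∀ g ∈ Fz, nD ξ g = 0) ∧ ∀ i, |nD ξ i| ≤ 2 ^ ((ep + w0) * X)) ∧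
      (∀ z, Ld l (nL z) ∧ ∀ i, |nL z i| ≤ 2 ^ ((ep + w0) * X)) ∧
      (∀ z j u, |e z j u| ≤ 2 ^ ((ep + w0) * X)) ∧
      (∀ r, (∀ z, ∀ g ∈ Fz, φ z g 2 (Fin.natAdd k0 r) = 0) →
        ∀ z, e z 2 (Fin.natAdd k0 r) = 0) ∧
      p2 ≤ Pb Q.p (fun ω =>
        (∃ r : Fin c → ℝ, (∀ g, |r g| ≤ 2 ^ ((ep + w0) * X)) ∧
          ∀ i, |(nD (pt ω) ᵥ* M ω) i - nL (L' ω) i + ∑ g ∈ Fz, r g * fL (L' ω) g i| ≤
            2 ^ (-(x2 * X))) ∧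
        ∀ u, |∑ i, nL (L' ω) i * Fin.append (Q.a (Q.th ω)) (Q.cc (Q.th ω)) u i -
          ∑ j, e (L' ω) j u * psi3 (fun ω => Q.tm (Q.th ω)) X ω j| ≤ 2 ^ (-(x2 * X))) := by
  obtain ⟨x2, p2, η, κ, hx2, hp2, hη, hκ, hηp, hκx, cov⟩ :=
    cov5 c k0 k1 n₀ hn₀ p0 x1 ep w0 hp0 hx1 hep hw0
  obtain ⟨η1, hη1⟩ : ∃ η1 : ℝ, η1 = min (η / 2) ((η / 2) ^ 2) := ⟨_, rfl⟩
  have h1 : 0 < η1 := by
    rw [hη1]
    exact lt_min (by positivity) (by positivity)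
  have h2 : η1 ≤ η / 2 := by rw [hη1]; exact min_le_left _ _
  have h3 : Real.sqrt η1 ≤ η / 2 := by
    refine Real.sqrt_le_iff.2 ⟨by positivity, ?_⟩
    rw [hη1]
    exact min_le_right _ _
  have h4 : η1 ≤ η := by linarith
  refine ⟨x2, p2, η1, κ, hx2, hp2, h1, hκ, h4.trans hηp, hκx, ?_⟩
  intro s hs hs1
  obtain ⟨X1, hX1⟩ := cov (s ^ 2 / 8) (by positivity) (by nlinarith)
  obtain ⟨X2, hX2⟩ := pow_unbounded_of_one_lt (16 / s ^ 2) (show (1 : ℝ) < 2 by norm_num)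
  refine ⟨max X1 X2, ?_⟩
  intro X hX Q Pt Λ' Ξ P L' pt hlaw htm ha hc hEl hEv hLL hPP A M Fz fD fL φ Gd B hB hdet hA hAi
    hM hMG hMi hn hGd hfD hfL hfE hφ hcv htr hF1 hF2 hTM
  have hX2' : 16 ≤ s ^ 2 * 2 ^ X := by
    have e1 : (2 : ℝ) ^ X2 ≤ 2 ^ X :=
      pow_le_pow_right₀ (by norm_num) ((le_max_right _ _).trans hX)
    have e2 : 16 / s ^ 2 < 2 ^ X := hX2.trans_le e1
    rw [div_lt_iff₀ (by positivity)] at e2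
    linarith
  have h0 := hlaw.nonneg
  have ht := tup_nonneg h0 Q.line
  have hss : s ^ 2 / 8 ≤ s := by nlinarith
  have hXp : (0 : ℝ) < 2 ^ X := by positivity
  refine hX1 X ((le_max_left _ _).trans hX) (p := Q.p) hlaw Q.line P L' pt hLL hPP A M
    (fun ω => Q.tm (Q.th ω)) (fun os ω => tsq X (Q.tm (Q.th ω)) (Q.tm (Q.th os)))
    (fun ω => Fin.append (Q.a (Q.th ω)) (Q.cc (Q.th ω))) (fun ω => Q.El (Q.th ω))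
    (fun ω => Q.Ev (Q.th ω)) Fz fD fL φ Gd B hB hdet hA hAi hM hMG hMi ?_
    ?_ (fun ω _ u i => hEv ω u i)
    (fun ω _ => htm ω) (fun os ω _ _ => Pool.P5.sq_r (htm ω) (htm os))
    (fun os ω _ _ => Pool.P5.sq_near X (Q.tm (Q.th ω)) (Q.tm (Q.th os))) hn (hGd.trans h4) hfD hfL
    hfE hφ hcv (htr.trans h4) ?_ ?_ ?_ ?_
  · intro ω _ u i
    refine Fin.addCases (fun u => ?_) (fun u => ?_) u
    · rw [Fin.append_left]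
      exact ha ω u i
    · rw [Fin.append_right]
      exact hc ω u i
  · intro ω ω' _ _ r i u
    rw [Fin.append_right, abs_mul]
    exact hEl ω ω' i r u
  · simp only [Fin.append_right]
    exact hF1.trans h4
  · simp only [Fin.append_left, Fin.append_right]
    obtain ⟨Bd, hBd⟩ : ∃ Bd : Fin 2 → (Fin 6 → Q.Ω) → Prop, Bd = ![
      fun w => ¬ ∀ u b, |((A (P (w 0)))⁻¹ *ᵥ (M (w 0) *ᵥ
        d3 (fun t => tsq X (Q.tm t) (Q.tm (Q.th (w 4))))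
        (fun t => Q.at2 X s t (Q.th (w 4)) (Q.th (w 5))) u
        (Q.th (w 1)) (Q.th (w 2)) (Q.th (w 3)))) b| ≤ 2 ^ (κ * X),
      fun w => |((Q.tm (Q.th (w 5)) - Q.tm (Q.th (w 4)) : ℤ) : ℝ)| ≤ s * 2 ^ X] := ⟨_, rfl⟩
    have b0 : Pb (tup Q.p Q.line 5) (Bd 0) ≤ η1 := by
      rw [hBd]
      exact hF2
    have b1 : Pb (tup Q.p Q.line 5) (Bd 1) ≤ η1 := by
      have b3 := pmarg (tup_sub h0 Q.line (M := 1) (N := 5) ![5, 4] (by decide))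
        (fun w => |((Q.tm (Q.th (w 0)) - Q.tm (Q.th (w 1)) : ℤ) : ℝ)| ≤ s * 2 ^ X)
      rw [hBd]
      exact (le_of_eq b3).trans hTM
    have b2 := pbad (ht 5) univ
      (A := fun w => ¬ ∀ u b, |((A (P (w 0)))⁻¹ *ᵥ (M (w 0) *ᵥ
        d3 ((fun os ω => tsq X (Q.tm (Q.th ω)) (Q.tm (Q.th os))) (w 4))
        (Q.aTq X (w 4) (w 5)) u (w 1) (w 2) (w 3))) b| ≤ 2 ^ (κ * X))
      (G := fun _ => False) Bd (by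
      intro w _ hbad
      by_contra hh
      push Not at hh
      obtain ⟨hh, -⟩ := hh
      have g0 := hh 0 (mem_univ _)
      have g1 := hh 1 (mem_univ _)
      rw [hBd] at g0 g1
      replace g0 := not_not.1 g0
      replace g1 : s * 2 ^ X < |((Q.tm (Q.th (w 5)) - Q.tm (Q.th (w 4)) : ℤ) : ℝ)| := not_le.1 g1
      apply hbad
      intro u b
      show |((A (P (w 0)))⁻¹ *ᵥ (M (w 0) *ᵥ
        d3 (fun ω => tsq X (Q.tm (Q.th ω)) (Q.tm (Q.th (w 4))))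
        (Q.aTq X (w 4) (w 5)) u (w 1) (w 2) (w 3))) b| ≤ 2 ^ (κ * X)
      rw [d3_at2 Q g1.le]
      exact g0 u b)
    have e0 : Pb (tup Q.p Q.line 5) (fun _ => False) = 0 := by
      unfold Pb
      exact Finset.sum_eq_zero fun w _ => if_neg (fun h => h)
    rw [Fin.sum_univ_two, e0] at b2
    refine b2.trans ?_
    linarith
  · refine le_trans (pmono (ht 1) fun w _ hw => ?_) (hTM.trans h4)
    exact hw.trans (mul_le_mul_of_nonneg_right hss hXp.le)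
  · exact (Pool.P5.tm2 hlaw Q.line (fun ω => Q.tm (Q.th ω)) hs.le hX2' hTM).trans
      (by linarith)

end Pool.TQ64
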